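import Mathlib

/-!
Deterministic Turing machines with a read-only input tape, time, space, and directed reachability.
-/

set_option autoImplicit false

namespace Pool.Agent.DR

/-- Moves of a head. -/
inductive Move : Type
  | left
  | stay
  | right

/-- The move on a work tape; the cells are numbered by the integers. -/
def Move.work : Move → ℤ → ℤ
  | .left, z => z - 1
  | .stay, z => z
  | .right, z => z + 1

/-- The move on the input tape. Its cells are `0, 1, ..., n + 1`, where `n` is the length of the
input; the head does not leave them. -/
def Move.input (n : ℕ) : Move → ℕ → ℕ
  | .left, i => i - 1
  | .stay, i => i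
  | .right, i => min (i + 1) (n + 1)

/-- A deterministic Turing machine with a two-way read-only input tape and `k` work tapes. In each
step it reads the symbols under its heads; it halts if `step` is `none`, otherwise it changes its
state, moves the input head and, on every work tape, writes a symbol and moves the head. -/
structure Machine where
  /-- the number of work tapes -/
  k : ℕ
  /-- the states -/
  Q : Type
  /-- the symbols of the work tapes -/
  Γ : Type
  finQ : Finite Q
  finΓ : Finite Γ
  blank : Γ
  start : Q
  /-- the accepting states -/
  acc : Set Q
  step : Q → Option Bool → (Fin k → Γ) → Option (Q × Move × (Fin k → Γ × Move))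

/-- The symbol in cell `i` of the input tape with input `x`: the bits of `x` are in the cells
`1, ..., n`, and the cells `0` and `n + 1` carry endmarkers (`none`). -/
def sym (x : List Bool) (i : ℕ) : Option Bool := if i = 0 then none else x[i - 1]?

namespace Machine

/-- Configurations: state, position of the input head, positions of the work heads, contents of
the work tapes. -/
structure Config (M : Machine) where
  q : M.Q
  i : ℕ
  pos : Fin M.k → ℤ
  tape : Fin M.k → ℤ → M.Γ

variable (M : Machine) (x : List Bool)

/-- The start configuration: all work tapes are blank. -/
def init : M.Config := ⟨M.start, 1, fun _ => 0, fun _ _ => M.blank⟩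

/-- One step on input `x`; `none` if the machine halts. -/
def next (c : M.Config) : Option M.Config :=
  (M.step c.q (sym x c.i) fun j => c.tape j (c.pos j)).map fun r =>
    { q := r.1
      i := r.2.1.input x.length c.i
      pos := fun j => (r.2.2 j).2.work (c.pos j)
      tape := fun j => Function.update (c.tape j) (c.pos j) (r.2.2 j).1 }

/-- The configuration after `t` steps, `none` if the machine halts before. -/
def run : ℕ → Option M.Config
  | 0 => some M.init
  | t + 1 => (run t).bind (M.next x)

/-- The machine halts on input `x`. -/
def Halts : Prop := ∃ t, M.run x t = none

/-- The number of steps which the machine makes on input `x` (if it halts). -/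
noncomputable def time : ℕ := sInf {t | M.run x (t + 1) = none}

/-- The machine halts on input `x` in an accepting state. -/
def Accepts : Prop := ∃ t c, M.run x t = some c ∧ M.next x c = none ∧ c.q ∈ M.acc

/-- The cells of the work tapes which are visited by the heads on input `x`. -/
def cells : Set (Fin M.k × ℤ) := {p | ∃ t c, M.run x t = some c ∧ c.pos p.1 = p.2}

end Machine

/-- A digraph on `n` vertices, given by its adjacency matrix, and two vertices as a string:
`1^n 0 1^s 0 1^t 0` and the rows of the matrix. -/
def code {n : ℕ} (H : Fin n → Fin n → Bool) (s t : Fin n) : List Bool :=
  List.replicate n true ++ false :: (List.replicate s true ++ false ::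
    (List.replicate t true ++ false :: (List.ofFn fun u => List.ofFn (H u)).flatten))

/-- There is a directed path from `s` to `t`. -/
def Reach {V : Type} (H : V → V → Bool) (s t : V) : Prop :=
  Relation.ReflTransGen (fun u v => H u v = true) s t

/-- The probability of the digraph `H` if every arc `(u, v)` is present with probability `P u v`,
independently. -/
def prob {n : ℕ} (P : Fin n → Fin n → ℝ) (H : Fin n → Fin n → Bool) : ℝ :=
  ∏ u, ∏ v, if H u v = true then P u v else 1 - P u v

end Pool.Agent.DR
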